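import Pool.Agent.H31.CZ.T
import Pool.Agent.H14.ZF.UNI

/-!
Board cz (MP_52e316_nt), row UNZ: the universal family of the twists, from power savings at every level.
-/

set_option autoImplicit false

namespace Pool.Agent.H55.CZ

open Pool.Agent.H27.ZF Pool.Agent.H31.CZ

/-- the bound at one level when `N Q ^ m` is not small against `X` -/
lemma lev {m : ℕ} {a θ ε c X Y : ℝ} (hθ0 : 0 < θ) (hθ : θ ≤ 1 / 2) (hε : 0 ≤ ε) (hX : 1 ≤ X)
    (hY : X ^ (1 - θ) ≤ Y) (hc : m * θ + 2 * ε + c ≤ a) :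
    X ^ ε * (Y ^ (m : ℝ) + (X * Y) ^ ((m : ℝ) / 2)) * Y ^ (-a) ≤ 2 * Y ^ ((m : ℝ) - c) := by
  have hX0 : 0 < X := by linarith
  have hY1 : 1 ≤ Y := (Real.one_le_rpow hX (by linarith)).trans hY
  have hY0 : 0 < Y := by linarith
  have hmr : (0 : ℝ) ≤ m := Nat.cast_nonneg m
  have h1 : X ≤ Y ^ (1 + 2 * θ) := by
    calc X = X ^ (1 : ℝ) := (Real.rpow_one X).symm
      _ ≤ X ^ ((1 - θ) * (1 + 2 * θ)) := Real.rpow_le_rpow_of_exponent_le hX (by nlinarith)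
      _ = (X ^ (1 - θ)) ^ (1 + 2 * θ) := Real.rpow_mul hX0.le _ _
      _ ≤ Y ^ (1 + 2 * θ) := Real.rpow_le_rpow (by positivity) hY (by linarith)
  have h2 : X ^ ε ≤ Y ^ (2 * ε) := by
    calc X ^ ε ≤ (Y ^ (1 + 2 * θ)) ^ ε := Real.rpow_le_rpow hX0.le h1 hε
      _ = Y ^ ((1 + 2 * θ) * ε) := (Real.rpow_mul hY0.le _ _).symm
      _ ≤ Y ^ (2 * ε) := Real.rpow_le_rpow_of_exponent_le hY1 (by nlinarith)
  have h3 : (X * Y) ^ ((m : ℝ) / 2) ≤ Y ^ ((m : ℝ) * (1 + θ)) := by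
    calc (X * Y) ^ ((m : ℝ) / 2) ≤ (Y ^ (1 + 2 * θ) * Y) ^ ((m : ℝ) / 2) :=
          Real.rpow_le_rpow (by positivity) (by gcongr) (by positivity)
      _ = (Y ^ (1 + 2 * θ + 1)) ^ ((m : ℝ) / 2) := by rw [Real.rpow_add_one hY0.ne']
      _ = Y ^ ((1 + 2 * θ + 1) * ((m : ℝ) / 2)) := (Real.rpow_mul hY0.le _ _).symm
      _ = Y ^ ((m : ℝ) * (1 + θ)) := by
          congr 1
          ring
  have h4 : Y ^ (m : ℝ) ≤ Y ^ ((m : ℝ) * (1 + θ)) :=
    Real.rpow_le_rpow_of_exponent_le hY1 (by nlinarith)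
  calc X ^ ε * (Y ^ (m : ℝ) + (X * Y) ^ ((m : ℝ) / 2)) * Y ^ (-a) ≤
      Y ^ (2 * ε) * (Y ^ ((m : ℝ) * (1 + θ)) + Y ^ ((m : ℝ) * (1 + θ))) * Y ^ (-a) := by gcongr
    _ = 2 * (Y ^ (2 * ε) * Y ^ ((m : ℝ) * (1 + θ)) * Y ^ (-a)) := by ring
    _ = 2 * Y ^ (2 * ε + (m : ℝ) * (1 + θ) + -a) := by
        rw [Real.rpow_add hY0, Real.rpow_add hY0]
    _ ≤ 2 * Y ^ ((m : ℝ) - c) := by
        refine mul_le_mul_of_nonneg_left (Real.rpow_le_rpow_of_exponent_le hY1 ?_) (by norm_num)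
        linarith

/-- the forms with small `N P ^ m`, at one level -/
lemma small {S : Type} [Fintype S] {m N : ℕ} (hm : 1 ≤ m) (hN : 1 ≤ N) {C1 ε Z : ℝ} (hC1 : 0 ≤ C1)
    (hε : 0 ≤ ε) (hZ : 1 ≤ Z) (P w v : S → ℝ)
    (hF : ∀ i, 1 ≤ P i ∧ 1 ≤ w i ∧ 0 ≤ v i ∧ v i ≤ 1)
    (hT : ∀ Q : ℝ, 1 ≤ Q → ∑ i ∈ Finset.univ.filter (fun i : S => P i ≤ Q), w i ≤
      C1 * ((N : ℝ) * Q) ^ ε * ((N : ℝ) ^ m * Q ^ (m ^ 2))) :
    ∑ i ∈ Finset.univ.filter (fun i : S => (N : ℝ) * P i ^ m ≤ Z), v i ≤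
      C1 * Z ^ ((m : ℝ) + ε) := by
  have hN1 : (1 : ℝ) ≤ N := by exact_mod_cast hN
  have hN0 : (0 : ℝ) < N := by linarith
  have hZ0 : 0 < Z := by linarith
  have hm0 : (m : ℝ) ≠ 0 := by
    have : m ≠ 0 := by omega
    exact_mod_cast this
  by_cases hNZ : (N : ℝ) ≤ Z
  · obtain ⟨Q, hQd⟩ : ∃ Q : ℝ, Q = (Z / N) ^ (1 / (m : ℝ)) := ⟨_, rfl⟩
    have hQ1 : 1 ≤ Q := by
      rw [hQd]
      exact Real.one_le_rpow ((one_le_div hN0).2 hNZ) (by positivity)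
    have hQ0 : 0 < Q := by linarith
    have hQm : Q ^ m = Z / N := by
      rw [hQd, ← Real.rpow_natCast, ← Real.rpow_mul (by positivity), one_div,
        inv_mul_cancel₀ hm0, Real.rpow_one]
    have hNQ : (N : ℝ) * Q ^ m = Z := by
      rw [hQm]
      field_simp
    have h1 : ∑ i ∈ Finset.univ.filter (fun i : S => (N : ℝ) * P i ^ m ≤ Z), v i ≤
        ∑ i ∈ Finset.univ.filter (fun i : S => P i ≤ Q), w i := by
      rw [Finset.sum_filter, Finset.sum_filter]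
      refine Finset.sum_le_sum fun i _ => ?_
      obtain ⟨h2, h3, h4, h5⟩ := hF i
      by_cases h6 : (N : ℝ) * P i ^ m ≤ Z
      · have h7 : P i ≤ Q := by
          refine le_of_pow_le_pow_left₀ (by omega : m ≠ 0) hQ0.le ?_
          rw [hQm, le_div_iff₀ hN0]
          linarith
        rw [if_pos h6, if_pos h7]
        linarith
      · rw [if_neg h6]
        split_ifs
        · linarith
        · exact le_rfl
    refine h1.trans ((hT Q hQ1).trans ?_)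
    have h2 : (N : ℝ) ^ m * Q ^ (m ^ 2) = Z ^ (m : ℝ) := by
      rw [Real.rpow_natCast, ← hNQ, mul_pow, ← pow_mul, ← sq]
    have h3 : ((N : ℝ) * Q) ^ ε ≤ Z ^ ε := by
      refine Real.rpow_le_rpow (by positivity) ?_ hε
      rw [← hNQ]
      exact mul_le_mul_of_nonneg_left (le_self_pow₀ hQ1 (by omega)) hN0.le
    rw [h2]
    calc C1 * ((N : ℝ) * Q) ^ ε * Z ^ (m : ℝ) ≤ C1 * Z ^ ε * Z ^ (m : ℝ) := by gcongr
      _ = C1 * Z ^ ((m : ℝ) + ε) := by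
          rw [Real.rpow_add hZ0]
          ring
  · have h1 : ∑ i ∈ Finset.univ.filter (fun i : S => (N : ℝ) * P i ^ m ≤ Z), v i = 0 := by
      refine Finset.sum_eq_zero fun i hi => ?_
      exfalso
      have h2 := (Finset.mem_filter.1 hi).2
      have h3 : (1 : ℝ) ≤ P i ^ m := one_le_pow₀ (hF i).1
      have h4 := not_le.1 hNZ
      nlinarith
    rw [h1]
    positivity

open Classical in
theorem pf_UNZ : T_UNZ := by
  intro m a hm ha
  have hmr : (1 : ℝ) ≤ m := by exact_mod_cast hm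
  have hm0 : (0 : ℝ) < m := by linarith
  obtain ⟨θ, hθ⟩ : ∃ θ : ℝ, θ = min (1 / 2) (a / (4 * m)) := ⟨_, rfl⟩
  have hθ0 : 0 < θ := by
    rw [hθ]
    exact lt_min (by norm_num) (by positivity)
  have hθ2 : θ ≤ 1 / 2 := by
    rw [hθ]
    exact min_le_left _ _
  have hθa : m * θ ≤ a / 4 := by
    calc (m : ℝ) * θ ≤ m * (a / (4 * m)) := by
          rw [hθ]
          exact mul_le_mul_of_nonneg_left (min_le_right _ _) hm0.le
      _ = a / 4 := by
          field_simp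
  obtain ⟨c, hcd⟩ : ∃ c : ℝ, c = min (a / 2) 1 := ⟨_, rfl⟩
  have hc0 : 0 < c := by
    rw [hcd]
    exact lt_min (by positivity) one_pos
  have hca : c ≤ a / 2 := by
    rw [hcd]
    exact min_le_left _ _
  have hc1 : c ≤ 1 := by
    rw [hcd]
    exact min_le_right _ _
  obtain ⟨c', C, hc', hC, hU⟩ := Pool.Agent.H14.ZF.pf_UNI m c hm hc0
  refine ⟨min c' (θ / 2), θ / 2, 2 * C + 1, lt_min hc' (by positivity), by positivity,
    by positivity, ?_⟩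
  intro C1 X hC1 hX S _ P w v hF hT hV
  have hX0 : 0 < X := by linarith
  obtain ⟨Z, hZd⟩ : ∃ Z : ℝ, Z = X ^ (1 - θ) := ⟨_, rfl⟩
  have hZ1 : 1 ≤ Z := by
    rw [hZd]
    exact Real.one_le_rpow hX (by linarith)
  obtain ⟨v', hv'⟩ : ∃ v' : ∀ N : ℕ, S N → ℝ, v' = fun (N : ℕ) (i : S N) =>
      if (N : ℝ) ≤ X ∧ (N : ℝ) ^ (m + 1) * P N i ^ (m ^ 2) ≤ w N i * X ^ (m + 1) ∧
        Z < (N : ℝ) * P N i ^ m then v N i else 0 := ⟨_, rfl⟩
  have hv'0 : ∀ N : ℕ, 1 ≤ N → ∀ i, 0 ≤ v' N i := by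
    intro N hN i
    rw [hv']
    dsimp only
    split_ifs
    · exact (hF N hN i).2.2.2.1
    · exact le_rfl
  have hv'v : ∀ N : ℕ, 1 ≤ N → ∀ i, v' N i ≤ v N i := by
    intro N hN i
    rw [hv']
    dsimp only
    split_ifs
    · exact le_rfl
    · exact (hF N hN i).2.2.2.1
  have hlev : ∀ N : ℕ, 1 ≤ N → ∀ Q : ℝ, 1 ≤ Q →
      ∑ i ∈ Finset.univ.filter (fun i : S N => P N i ≤ Q), w N i * v' N i ≤
        (2 * C1) * ((N : ℝ) * Q ^ m) ^ ((m : ℝ) - c) := by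
    intro N hN Q hQ
    have hN1 : (1 : ℝ) ≤ N := by exact_mod_cast hN
    have hN0 : (0 : ℝ) < N := by linarith
    have hR0 : 0 ≤ (2 * C1) * ((N : ℝ) * Q ^ m) ^ ((m : ℝ) - c) := by positivity
    by_cases hNX : (N : ℝ) ≤ X
    · obtain ⟨Q', hQ'⟩ : ∃ Q' : ℝ, Q' = min Q (X ^ 2) := ⟨_, rfl⟩
      have hQ'1 : 1 ≤ Q' := by
        rw [hQ']
        exact le_min hQ (one_le_pow₀ hX)
      have hQ'Q : Q' ≤ Q := by
        rw [hQ']
        exact min_le_left _ _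
      have hQ'X : Q' ≤ X ^ (2 : ℝ) := by
        rw [hQ', Real.rpow_two]
        exact min_le_right _ _
      have h1 : ∑ i ∈ Finset.univ.filter (fun i : S N => P N i ≤ Q), w N i * v' N i ≤
          ∑ i ∈ Finset.univ.filter (fun i : S N => P N i ≤ Q'), w N i * v' N i := by
        rw [Finset.sum_filter, Finset.sum_filter]
        refine Finset.sum_le_sum fun i _ => ?_
        obtain ⟨g1, g2, g3, g4, g5⟩ := hF N hN i
        have g6 := hv'0 N hN i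
        by_cases g7 : P N i ≤ Q
        · rw [if_pos g7]
          by_cases g8 : P N i ≤ Q'
          · rw [if_pos g8]
          · rw [if_neg g8, hv']
            dsimp only
            rw [if_neg, mul_zero]
            rintro ⟨_, g9, _⟩
            apply g8
            rw [hQ']
            exact le_min g7 (Pool.Agent.H27.L1.H68.GHK.size_le hm hN hX g1 g3 g9)
        · rw [if_neg g7]
          split_ifs
          · exact mul_nonneg (by linarith) g6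
          · exact le_rfl
      refine h1.trans ?_
      by_cases hY : Z < (N : ℝ) * Q' ^ m
      · have h2 : ∑ i ∈ Finset.univ.filter (fun i : S N => P N i ≤ Q'), w N i * v' N i ≤
            ∑ i ∈ Finset.univ.filter (fun i : S N => P N i ≤ Q'), w N i * v N i := by
          refine Finset.sum_le_sum fun i _ => ?_
          exact mul_le_mul_of_nonneg_left (hv'v N hN i) (by linarith [(hF N hN i).2.1])
        refine h2.trans ((hV N hN hNX Q' hQ'1 hQ'X).trans ?_)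
        have h3 := lev (m := m) (a := a) (θ := θ) (ε := θ / 2) (c := c) (X := X)
          (Y := (N : ℝ) * Q' ^ m) hθ0 hθ2 (by positivity) hX (by rw [← hZd]; exact hY.le)
          (by nlinarith)
        have h4 : (N : ℝ) ^ m * Q' ^ (m ^ 2) = ((N : ℝ) * Q' ^ m) ^ (m : ℝ) := by
          rw [Real.rpow_natCast, mul_pow, ← pow_mul, ← sq]
        have h5 : (N : ℝ) * X * Q' ^ m = X * ((N : ℝ) * Q' ^ m) := by ring
        rw [h4, h5]
        calc C1 * X ^ (θ / 2) * (((N : ℝ) * Q' ^ m) ^ (m : ℝ) +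
            (X * ((N : ℝ) * Q' ^ m)) ^ ((m : ℝ) / 2)) * ((N : ℝ) * Q' ^ m) ^ (-a) =
            C1 * (X ^ (θ / 2) * (((N : ℝ) * Q' ^ m) ^ (m : ℝ) +
            (X * ((N : ℝ) * Q' ^ m)) ^ ((m : ℝ) / 2)) * ((N : ℝ) * Q' ^ m) ^ (-a)) := by ring
          _ ≤ C1 * (2 * ((N : ℝ) * Q' ^ m) ^ ((m : ℝ) - c)) :=
              mul_le_mul_of_nonneg_left h3 hC1
          _ ≤ C1 * (2 * ((N : ℝ) * Q ^ m) ^ ((m : ℝ) - c)) := by
              have : ((N : ℝ) * Q' ^ m) ^ ((m : ℝ) - c) ≤ ((N : ℝ) * Q ^ m) ^ ((m : ℝ) - c) := by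
                refine Real.rpow_le_rpow (by positivity) ?_ (by linarith)
                gcongr
              gcongr
          _ = _ := by ring
      · have h2 : ∑ i ∈ Finset.univ.filter (fun i : S N => P N i ≤ Q'), w N i * v' N i = 0 := by
          refine Finset.sum_eq_zero fun i hi => ?_
          have h3 := (Finset.mem_filter.1 hi).2
          rw [hv']
          dsimp only
          rw [if_neg, mul_zero]
          rintro ⟨_, _, h4⟩
          apply hY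
          have h5 : (0 : ℝ) ≤ P N i := by linarith [(hF N hN i).1]
          calc Z < (N : ℝ) * P N i ^ m := h4
            _ ≤ (N : ℝ) * Q' ^ m := by gcongr
        rw [h2]
        exact hR0
    · have h2 : ∑ i ∈ Finset.univ.filter (fun i : S N => P N i ≤ Q), w N i * v' N i = 0 := by
        refine Finset.sum_eq_zero fun i hi => ?_
        rw [hv']
        dsimp only
        rw [if_neg, mul_zero]
        rintro ⟨h4, _, _⟩
        exact hNX h4
      rw [h2]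
      exact hR0
  have hbig := hU (2 * C1) (by positivity) S P w v'
    (fun N hN i => ⟨(hF N hN i).1, (hF N hN i).2.1, (hF N hN i).2.2.1, hv'0 N hN i⟩) hlev X hX
  have hsm : ∀ N ∈ Finset.Icc 1 ⌊X⌋₊,
      ∑ i ∈ Finset.univ.filter (fun i : S N => (N : ℝ) * P N i ^ m ≤ Z), v N i ≤
        C1 * Z ^ ((m : ℝ) + θ / 2) := by
    intro N hN
    have hN1 := (Finset.mem_Icc.1 hN).1
    exact small hm hN1 hC1 (by positivity) hZ1 (P N) (w N) (v N)
      (fun i => ⟨(hF N hN1 i).1, (hF N hN1 i).2.1, (hF N hN1 i).2.2.2⟩) (hT N hN1)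
  have hZp : X * Z ^ ((m : ℝ) + θ / 2) ≤ X ^ ((m : ℝ) + 1 - θ / 2) := by
    rw [hZd, ← Real.rpow_mul hX0.le]
    calc X * X ^ ((1 - θ) * ((m : ℝ) + θ / 2)) = X ^ (1 : ℝ) * X ^ ((1 - θ) * ((m : ℝ) + θ / 2)) := by
          rw [Real.rpow_one]
      _ = X ^ (1 + (1 - θ) * ((m : ℝ) + θ / 2)) := (Real.rpow_add hX0 _ _).symm
      _ ≤ _ := Real.rpow_le_rpow_of_exponent_le hX (by nlinarith)
  have hsum : ∑ N ∈ Finset.Icc 1 ⌊X⌋₊, ∑ i ∈ Finset.univ.filter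
      (fun i : S N => (N : ℝ) * P N i ^ m ≤ Z), v N i ≤ C1 * X ^ ((m : ℝ) + 1 - θ / 2) := by
    calc ∑ N ∈ Finset.Icc 1 ⌊X⌋₊, ∑ i ∈ Finset.univ.filter
          (fun i : S N => (N : ℝ) * P N i ^ m ≤ Z), v N i ≤
        ∑ _N ∈ Finset.Icc 1 ⌊X⌋₊, C1 * Z ^ ((m : ℝ) + θ / 2) := Finset.sum_le_sum hsm
      _ = (⌊X⌋₊ : ℝ) * (C1 * Z ^ ((m : ℝ) + θ / 2)) := by
          rw [Finset.sum_const, nsmul_eq_mul, Nat.card_Icc, Nat.add_sub_cancel]
      _ ≤ X * (C1 * Z ^ ((m : ℝ) + θ / 2)) :=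
          mul_le_mul_of_nonneg_right (Nat.floor_le hX0.le) (by positivity)
      _ = C1 * (X * Z ^ ((m : ℝ) + θ / 2)) := by ring
      _ ≤ _ := mul_le_mul_of_nonneg_left hZp hC1
  have hsplit : ∑ N ∈ Finset.Icc 1 ⌊X⌋₊, ∑ i ∈ Finset.univ.filter
      (fun i : S N => (N : ℝ) ^ (m + 1) * P N i ^ (m ^ 2) ≤ w N i * X ^ (m + 1)), v N i ≤
      ∑ N ∈ Finset.Icc 1 ⌊X⌋₊, ∑ i ∈ Finset.univ.filter
        (fun i : S N => (N : ℝ) ^ (m + 1) * P N i ^ (m ^ 2) ≤ w N i * X ^ (m + 1)), v' N i +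
      ∑ N ∈ Finset.Icc 1 ⌊X⌋₊, ∑ i ∈ Finset.univ.filter
        (fun i : S N => (N : ℝ) * P N i ^ m ≤ Z), v N i := by
    rw [← Finset.sum_add_distrib]
    refine Finset.sum_le_sum fun N hN => ?_
    obtain ⟨hN1, hN2⟩ := Finset.mem_Icc.1 hN
    have hNX : (N : ℝ) ≤ X := (Nat.cast_le.2 hN2).trans (Nat.floor_le hX0.le)
    rw [Finset.sum_filter, Finset.sum_filter, Finset.sum_filter, ← Finset.sum_add_distrib]
    refine Finset.sum_le_sum fun i _ => ?_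
    obtain ⟨g1, g2, g3, g4, g5⟩ := hF N hN1 i
    have g6 := hv'0 N hN1 i
    by_cases g7 : (N : ℝ) ^ (m + 1) * P N i ^ (m ^ 2) ≤ w N i * X ^ (m + 1)
    · rw [if_pos g7, if_pos g7]
      by_cases g8 : (N : ℝ) * P N i ^ m ≤ Z
      · rw [if_pos g8]
        linarith
      · rw [if_neg g8, hv']
        dsimp only
        rw [if_pos ⟨hNX, g7, not_le.1 g8⟩, add_zero]
    · rw [if_neg g7, if_neg g7, zero_add]
      split_ifs
      · exact g4
      · exact le_rfl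
  have he1 : X ^ ((m : ℝ) + 1 - c') ≤ X ^ ((m : ℝ) + 1 - min c' (θ / 2)) :=
    Real.rpow_le_rpow_of_exponent_le hX (by linarith [min_le_left c' (θ / 2)])
  have he2 : X ^ ((m : ℝ) + 1 - θ / 2) ≤ X ^ ((m : ℝ) + 1 - min c' (θ / 2)) :=
    Real.rpow_le_rpow_of_exponent_le hX (by linarith [min_le_right c' (θ / 2)])
  calc _ ≤ _ := hsplit
    _ ≤ C * (2 * C1) * X ^ ((m : ℝ) + 1 - c') + C1 * X ^ ((m : ℝ) + 1 - θ / 2) :=
        add_le_add hbig hsum
    _ ≤ C * (2 * C1) * X ^ ((m : ℝ) + 1 - min c' (θ / 2)) +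
        C1 * X ^ ((m : ℝ) + 1 - min c' (θ / 2)) := by gcongr
    _ = _ := by ring

end Pool.Agent.H55.CZ
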